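import Pool.Agent.helper13.UN.SpecG

/-!
# Row GSB of project UN, block H: the absolute value of the Gauss sum
-/

set_option autoImplicit false

open NumberField Complex

namespace Pool.Agent.UN

theorem GSB_ee_add (x y : ℝ) : ee (x + y) = ee x * ee y := by
  unfold ee
  rw [← Complex.exp_add]
  congr 1
  push_cast
  ring

theorem GSB_ee_zero : ee 0 = 1 := by
  unfold ee
  simp

theorem GSB_ee_norm (x : ℝ) : ‖ee x‖ = 1 := by
  unfold ee
  exact Complex.norm_exp_ofReal_mul_I _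

theorem GSB_ee_one {x : ℝ} (h : ee x = 1) : ∃ n : ℤ, x = n := by
  unfold ee at h
  rw [Complex.exp_eq_one_iff] at h
  obtain ⟨n, hn⟩ := h
  refine ⟨n, ?_⟩
  have h2 : (((2 * Real.pi * x : ℝ) : ℂ)) = ((2 * Real.pi * (n : ℝ) : ℝ) : ℂ) := by
    have h3 : (((2 * Real.pi * x : ℝ) : ℂ)) * I = (((2 * Real.pi * (n : ℝ) : ℝ) : ℂ)) * I := by
      rw [hn]
      push_cast
      ring
    exact mul_right_cancel₀ Complex.I_ne_zero h3
  have h4 : 2 * Real.pi * x = 2 * Real.pi * (n : ℝ) := Complex.ofReal_injective h2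
  exact mul_left_cancel₀ (mul_ne_zero two_ne_zero Real.pi_ne_zero) h4

section

variable {K : Type} [Field K] [NumberField K]

theorem GSB_et_add (x y : K) : et (x + y) = et x * et y := by
  unfold et
  rw [map_add, Rat.cast_add, GSB_ee_add]

theorem GSB_et_zero : et (0 : K) = 1 := by
  unfold et
  rw [map_zero, Rat.cast_zero, GSB_ee_zero]

theorem GSB_et_norm (x : K) : ‖et x‖ = 1 := GSB_ee_norm _

theorem GSB_et_neg (x : K) : et (-x) = (starRingEnd ℂ) (et x) := by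
  have h1 : et (-x) * et x = 1 := by
    rw [← GSB_et_add, neg_add_cancel, GSB_et_zero]
  have h2 : (starRingEnd ℂ) (et x) * et x = 1 := by
    rw [mul_comm, Complex.mul_conj', GSB_et_norm]
    simp
  have h3 : et x ≠ 0 := by
    intro h0
    rw [h0, mul_zero] at h1
    exact zero_ne_one h1
  exact mul_right_cancel₀ h3 (h1.trans h2.symm)

theorem GSB_ou {f : Ideal (𝓞 K)} (u : 𝓞 K ⧸ f) : Ideal.Quotient.mk f (ou u) = u :=
  Function.surjInv_eq Ideal.Quotient.mk_surjective u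

theorem GSB_ou_mk {f : Ideal (𝓞 K)} (x : 𝓞 K) : ou (Ideal.Quotient.mk f x) - x ∈ f := by
  rw [← Ideal.Quotient.eq, GSB_ou]

theorem GSB_ou_add {f : Ideal (𝓞 K)} (u v : 𝓞 K ⧸ f) : ou (u + v) - (ou u + ou v) ∈ f := by
  rw [← Ideal.Quotient.eq, GSB_ou, map_add, GSB_ou, GSB_ou]

theorem GSB_Du_mul {f : Ideal (𝓞 K)} {η : K} (hη : η ∈ Du f) (t : 𝓞 K) : η * ((t : 𝓞 K) : K) ∈ Du f := by
  intro x hx
  obtain ⟨k, hk⟩ := hη (t * x) (Ideal.mul_mem_left f t hx)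
  refine ⟨k, ?_⟩
  rw [← hk]
  congr 1
  push_cast
  ring

/-- orthogonality -/
theorem GSB_orth (hGS0 : GS0_stmt) (f : Ideal (𝓞 K)) [Fintype (𝓞 K ⧸ f)] (F : 𝓞 K → ℂ) (hf : f ≠ ⊥) (hF : FC f F)
    (η : K) (hη : η ∈ Du f) (hn : ¬ η ∈ Du (⊤ : Ideal (𝓞 K))) :
    ∑ v : 𝓞 K ⧸ f, et (η * ((ou v : 𝓞 K) : K)) = 0 := by
  obtain ⟨h1, -, -⟩ := hGS0 K f F hf hF
  have hx : ∃ x : 𝓞 K, et (η * ((x : 𝓞 K) : K)) ≠ 1 := by
    by_contra hcon
    push Not at hcon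
    apply hn
    intro x _
    have h2 := hcon x
    unfold et at h2
    obtain ⟨n, hn'⟩ := GSB_ee_one h2
    exact ⟨n, by exact_mod_cast hn'⟩
  obtain ⟨x, hx⟩ := hx
  set c := et (η * ((x : 𝓞 K) : K)) with hc
  have h3 : ∑ v : 𝓞 K ⧸ f, et (η * ((ou v : 𝓞 K) : K)) =
      ∑ v : 𝓞 K ⧸ f, et (η * ((ou (v + Ideal.Quotient.mk f x) : 𝓞 K) : K)) :=
    (Fintype.sum_equiv (Equiv.addRight (Ideal.Quotient.mk f x)) _ _ fun v => rfl).symm
  have h4 : ∀ v : 𝓞 K ⧸ f, et (η * ((ou (v + Ideal.Quotient.mk f x) : 𝓞 K) : K)) =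
      c * et (η * ((ou v : 𝓞 K) : K)) := by
    intro v
    have h5 : ou (v + Ideal.Quotient.mk f x) - (ou v + x) ∈ f := by
      rw [← Ideal.Quotient.eq, GSB_ou, map_add, GSB_ou]
    rw [h1 η hη _ _ h5, hc, ← GSB_et_add]
    congr 1
    push_cast
    ring
  rw [Finset.sum_congr rfl fun v _ => h4 v, ← Finset.mul_sum] at h3
  have h6 : (1 - c) * ∑ v : 𝓞 K ⧸ f, et (η * ((ou v : 𝓞 K) : K)) = 0 := by
    linear_combination h3
  exact (mul_eq_zero.1 h6).resolve_left (sub_ne_zero.2 (Ne.symm hx))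

end

theorem GSB (hGSA : GSA_stmt) (hGS0 : GS0_stmt) : GSB_stmt := by
  intro K _ _ f F η hf hF hη hgen
  have : Finite (𝓞 K ⧸ f) := Ideal.finiteQuotientOfFreeOfNeBot f hf
  have : Fintype (𝓞 K ⧸ f) := Fintype.ofFinite _
  classical
  have hcard : ((Fintype.card (𝓞 K ⧸ f) : ℕ) : ℝ) = Nm f := by
    unfold Nm
    rw [Ideal.absNorm_apply, Submodule.cardQuot_apply, Nat.card_eq_fintype_card]
  have hgs : ∀ ξ : K, gs f F ξ = ∑ u : 𝓞 K ⧸ f, F (ou u) * et (ξ * ((ou u : 𝓞 K) : K)) := by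
    intro ξ
    unfold gs
    exact finsum_eq_sum_of_fintype _
  set Sg : ℝ := ∑ u : 𝓞 K ⧸ f, ‖F (ou u)‖ ^ 2 with hSg
  -- first evaluation
  have hA : ∑ v : 𝓞 K ⧸ f, ‖gs f F (η * ((ou v : 𝓞 K) : K))‖ ^ 2 = Sg * ‖gs f F η‖ ^ 2 := by
    rw [hSg, Finset.sum_mul]
    refine Finset.sum_congr rfl fun v _ => ?_
    rw [hGSA K f F η hf hF hη (ou v), norm_mul, mul_pow, Complex.norm_conj]
  -- second evaluation
  have hB : ((∑ v : 𝓞 K ⧸ f, ‖gs f F (η * ((ou v : 𝓞 K) : K))‖ ^ 2 : ℝ) : ℂ) =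
      ((Fintype.card (𝓞 K ⧸ f) : ℕ) : ℂ) * ((Sg : ℝ) : ℂ) := by
    have h1 : ∀ v : 𝓞 K ⧸ f, ((‖gs f F (η * ((ou v : 𝓞 K) : K))‖ ^ 2 : ℝ) : ℂ) =
        ∑ u : 𝓞 K ⧸ f, ∑ u' : 𝓞 K ⧸ f, F (ou u) * (starRingEnd ℂ) (F (ou u')) *
          et (η * (((ou u - ou u' : 𝓞 K)) : K) * ((ou v : 𝓞 K) : K)) := by
      intro v
      have h2 : ((‖gs f F (η * ((ou v : 𝓞 K) : K))‖ ^ 2 : ℝ) : ℂ) =
          gs f F (η * ((ou v : 𝓞 K) : K)) * (starRingEnd ℂ) (gs f F (η * ((ou v : 𝓞 K) : K))) := by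
        rw [Complex.mul_conj']
        push_cast
        rfl
      rw [h2, hgs, map_sum, Finset.sum_mul_sum]
      refine Finset.sum_congr rfl fun u _ => Finset.sum_congr rfl fun u' _ => ?_
      have h3 : et (η * (((ou u - ou u' : 𝓞 K)) : K) * ((ou v : 𝓞 K) : K)) =
          et (η * ((ou v : 𝓞 K) : K) * ((ou u : 𝓞 K) : K)) *
          (starRingEnd ℂ) (et (η * ((ou v : 𝓞 K) : K) * ((ou u' : 𝓞 K) : K))) := by
        rw [← GSB_et_neg, ← GSB_et_add]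
        congr 1
        push_cast
        ring
      rw [h3, map_mul]
      ring
    rw [Complex.ofReal_sum, Finset.sum_congr rfl fun v _ => h1 v, Finset.sum_comm]
    have h4 : ∀ u : 𝓞 K ⧸ f, ∑ v : 𝓞 K ⧸ f, ∑ u' : 𝓞 K ⧸ f, F (ou u) * (starRingEnd ℂ) (F (ou u')) *
          et (η * (((ou u - ou u' : 𝓞 K)) : K) * ((ou v : 𝓞 K) : K)) =
        ((Fintype.card (𝓞 K ⧸ f) : ℕ) : ℂ) * ((‖F (ou u)‖ ^ 2 : ℝ) : ℂ) := by
      intro u
      rw [Finset.sum_comm, Finset.sum_eq_single u]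
      · have h5 : ∀ v : 𝓞 K ⧸ f, F (ou u) * (starRingEnd ℂ) (F (ou u)) *
            et (η * (((ou u - ou u : 𝓞 K)) : K) * ((ou v : 𝓞 K) : K)) = ((‖F (ou u)‖ ^ 2 : ℝ) : ℂ) := by
          intro v
          have e0 : η * (((ou u - ou u : 𝓞 K)) : K) * ((ou v : 𝓞 K) : K) = 0 := by
            rw [sub_self]
            push_cast
            ring
          rw [e0, GSB_et_zero, mul_one, Complex.mul_conj']
          push_cast
          rfl
        rw [Finset.sum_congr rfl fun v _ => h5 v, Finset.sum_const, Finset.card_univ, nsmul_eq_mul]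
      · intro u' _ hu
        rw [← Finset.mul_sum]
        have h6 : ¬ η * (((ou u - ou u' : 𝓞 K)) : K) ∈ Du (⊤ : Ideal (𝓞 K)) := by
          intro h7
          have h8 := hgen _ h7
          rw [← Ideal.Quotient.eq, GSB_ou, GSB_ou] at h8
          exact hu h8.symm
        rw [GSB_orth hGS0 f F hf hF _ (GSB_Du_mul hη _) h6, mul_zero]
      · intro h
        exact absurd (Finset.mem_univ u) h
    rw [Finset.sum_congr rfl fun u _ => h4 u, ← Finset.mul_sum, hSg, Complex.ofReal_sum]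
  have hB' : ∑ v : 𝓞 K ⧸ f, ‖gs f F (η * ((ou v : 𝓞 K) : K))‖ ^ 2 =
      ((Fintype.card (𝓞 K ⧸ f) : ℕ) : ℝ) * Sg := by
    exact_mod_cast hB
  -- `Sg > 0`
  have hpos : 0 < Sg := by
    have h1 : ‖F (ou (Ideal.Quotient.mk f 1))‖ ^ 2 ≤ Sg :=
      Finset.single_le_sum (f := fun u : 𝓞 K ⧸ f => ‖F (ou u)‖ ^ 2) (fun u _ => sq_nonneg _) (Finset.mem_univ _)
    have h2 : F (ou (Ideal.Quotient.mk f 1)) = 1 := by
      rw [hF.per _ _ (GSB_ou_mk 1), hF.one]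
    rw [h2, norm_one] at h1
    linarith
  rw [hA, hcard, mul_comm] at hB'
  exact mul_right_cancel₀ hpos.ne' hB'

end Pool.Agent.UN
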